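import Pool.Agent.P.MP_3a4479_al.AP.All
import Pool.Agent.P.MP_3a4479_al.AP.Compat

set_option autoImplicit false

namespace Pool.Agent.Results.MP_017cbc_ag.NotTrace

universe u

/-- `φ` is an `R`-linear map from the `e`-th Frobenius pushforward of `R` to `R` -/
def IsPInvLinear {R : Type} [CommRing R] (p e : ℕ) (φ : R →+ R) : Prop :=
  ∀ r s : R, φ (r ^ p ^ e * s) = r * φ s

/-- every iterate of Frobenius splits -/
def IsFSplit (R : Type) [CommRing R] (p : ℕ) : Prop :=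
  ∀ e : ℕ, 1 ≤ e → ∃ φ : R →+ R, IsPInvLinear p e φ ∧ φ 1 = 1

/-- the ideal is preserved by all `p ^ (-e)`-linear maps -/
def IsCompatible {R : Type} [CommRing R] (p : ℕ) (I : Ideal R) : Prop :=
  ∀ e : ℕ, 1 ≤ e → ∀ φ : R →+ R, IsPInvLinear p e φ → ∀ s ∈ I, φ s ∈ I

/-- image of evaluation at one -/
def traceSet (R : Type) (S : Type u) [CommRing R] [CommRing S] [Algebra R S] : Set R :=
  {x | ∃ ψ : S →ₗ[R] R, ψ 1 = x}

theorem result (p : ℕ) (hp : p.Prime) :
    ∃ (R : Type) (_ : CommRing R) (_ : IsDomain R) (_ : IsNoetherianRing R) (_ : IsLocalRing R)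
      (_ : CharP R p) (_ : ExpChar R p),
      (frobenius R p).Finite ∧ IsFSplit R p ∧
      ∃ I : Ideal R, I ≠ ⊥ ∧ I ≠ ⊤ ∧ IsCompatible p I ∧
        ∀ (S : Type u) [CommRing S] [Algebra R S], Module.Finite R S →
          (I : Set R) ≠ traceSet R S := by
  have : Fact p.Prime := ⟨hp⟩
  obtain ⟨R, _, _, _, _, _, _, hF, hS, -, n, g, u, c, hc, h1, h2⟩ :=
    Pool.Agent.P.MP_3a4479_al.AP.example_ring Pool.Agent.P.MP_3a4479_al.AP.partB p
  obtain ⟨h3, I, h4, h5, h6, h7⟩ :=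
    Pool.Agent.P.MP_3a4479_al.AP.CompatP.main.{u} hp.pos hF hS hc h1 h2
  exact ⟨R, inferInstance, inferInstance, inferInstance, inferInstance, inferInstance,
    inferInstance, hF, fun e _ => h3 e, I, h4, h5, fun e _ => h6 e, h7⟩

end Pool.Agent.Results.MP_017cbc_ag.NotTrace
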